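import Pool.Agent.helper78.WB.SpecIII

/-!
# Row LRED (project wb, Part III): coefficients of the localisation over `ℤ_[ℓ]` and `ZMod ℓ`
-/

set_option autoImplicit false

namespace Pool.Agent.WB

open MvPolynomial

theorem LRED_map (ℓ : ℕ) [Fact ℓ.Prime] (j : Fin 3) (ζ₁ : V3) (p : MvPolynomial (Fin 3) ℤ) :
    map (PadicInt.toZMod (p := ℓ)) (loc j (fun i => ((ζ₁ i : ℤ) : ℤ_[ℓ]))
      (map (Int.castRingHom ℤ_[ℓ]) p)) = loc j (redv ℓ ζ₁) (redp ℓ p) := by
  have h : ((map (PadicInt.toZMod (p := ℓ))).comp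
      ((loc j (fun i => ((ζ₁ i : ℤ) : ℤ_[ℓ]))).toRingHom.comp (map (Int.castRingHom ℤ_[ℓ])))) =
      (loc j (redv ℓ ζ₁)).toRingHom.comp (map (Int.castRingHom (ZMod ℓ))) := by
    apply MvPolynomial.ringHom_ext
    · intro r
      simp [loc]
    · intro i
      rcases Fin.eq_self_or_eq_succAbove j i with rfl | ⟨t, rfl⟩
      · simp [loc, redv]
      · simp [loc, redv]
  exact congrArg (fun F => F p) h

theorem LRED : LRED_stmt := by
  intro ℓ _ j ζ₁ p μ
  rw [← LRED_map, coeff_map]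
  have h := PadicInt.ker_toZMod (p := ℓ)
  rw [PadicInt.maximalIdeal_eq_span_p] at h
  rw [← RingHom.mem_ker, h, Ideal.mem_span_singleton]

end Pool.Agent.WB
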