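import Pool.Agent.helper78.WB.SpecIIa

/-!
# Row VAR (project wb, Part IIa): second moment of a random subset
-/

set_option autoImplicit false

namespace Pool.Agent.WB

open Finset

/-- centred indicator of `c = 0` -/
noncomputable def vg (K : ℕ) (c : Fin K) : ℝ := (if c.val = 0 then (1 : ℝ) else 0) - 1 / K

theorem vg_ind_sum (K : ℕ) (hK : 1 ≤ K) : ∑ c : Fin K, (if c.val = 0 then (1 : ℝ) else 0) = 1 := by
  obtain ⟨k, rfl⟩ : ∃ k, K = k + 1 := ⟨K - 1, by omega⟩
  rw [Finset.sum_eq_single (0 : Fin (k + 1))]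
  · simp
  · intro c _ hc
    have : c.val ≠ 0 := fun h => hc (Fin.ext h)
    simp [this]
  · intro h
    exact absurd (Finset.mem_univ _) h

theorem vg_sum (K : ℕ) (hK : 1 ≤ K) : ∑ c : Fin K, vg K c = 0 := by
  have hK' : (K : ℝ) ≠ 0 := by positivity
  unfold vg
  rw [Finset.sum_sub_distrib, vg_ind_sum K hK]
  simp only [Finset.sum_const, Finset.card_univ, Fintype.card_fin, nsmul_eq_mul]
  field_simp
  ring

theorem vg_sq (K : ℕ) (hK : 1 ≤ K) : ∑ c : Fin K, vg K c ^ 2 ≤ 1 := by
  have h1 : ∀ c : Fin K, vg K c ^ 2 =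
      (if c.val = 0 then (1 : ℝ) else 0) - (1 / K) * (if c.val = 0 then (1 : ℝ) else 0)
        - (1 / K) * vg K c := by
    intro c
    unfold vg
    by_cases h : c.val = 0
    · simp only [h, if_true]
      ring
    · simp only [h, if_false]
      ring
  rw [Finset.sum_congr rfl (fun c _ => h1 c)]
  rw [Finset.sum_sub_distrib, Finset.sum_sub_distrib, ← Finset.mul_sum, ← Finset.mul_sum,
    vg_sum K hK, vg_ind_sum K hK]
  have : (0 : ℝ) ≤ 1 / K := by positivity
  linarith

theorem vg_prod {ι : Type} [Fintype ι] [DecidableEq ι] (K : ℕ) (f : ι → Fin K → ℝ) :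
    ∑ χ : ι → Fin K, ∏ i, f i (χ i) = ∏ i, ∑ c, f i c := by
  have h := Finset.prod_univ_sum (fun _ : ι => (Finset.univ : Finset (Fin K))) f
  rw [Fintype.piFinset_univ] at h
  exact h.symm

theorem vg_cross {ι : Type} [Fintype ι] [DecidableEq ι] (K : ℕ) (hK : 1 ≤ K) (x y : ι)
    (hxy : x ≠ y) : ∑ χ : ι → Fin K, vg K (χ x) * vg K (χ y) = 0 := by
  have h1 : ∀ χ : ι → Fin K, vg K (χ x) * vg K (χ y) =
      ∏ i, (fun (i : ι) (c : Fin K) => (if i = x then vg K c else 1) * (if i = y then vg K c else 1))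
        i (χ i) := by
    intro χ
    simp only
    rw [Finset.prod_mul_distrib]
    congr 1
    · rw [Finset.prod_eq_single x]
      · simp
      · intro b _ hb
        simp [hb]
      · intro h
        exact absurd (Finset.mem_univ _) h
    · rw [Finset.prod_eq_single y]
      · simp
      · intro b _ hb
        simp [hb]
      · intro h
        exact absurd (Finset.mem_univ _) h
  rw [Finset.sum_congr rfl (fun χ _ => h1 χ)]
  refine (vg_prod K (fun (i : ι) (c : Fin K) =>
    (if i = x then vg K c else 1) * (if i = y then vg K c else 1))).trans ?_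
  refine Finset.prod_eq_zero (Finset.mem_univ x) ?_
  simp only [if_true, hxy, if_false, mul_one]
  exact vg_sum K hK

theorem vg_diag {ι : Type} [Fintype ι] [DecidableEq ι] (K : ℕ) (hK : 1 ≤ K) (x : ι) :
    ∑ χ : ι → Fin K, vg K (χ x) * vg K (χ x) ≤ (K : ℝ) ^ Fintype.card ι / K := by
  have h1 : ∀ χ : ι → Fin K, vg K (χ x) * vg K (χ x) =
      ∏ i, (fun (i : ι) (c : Fin K) => (if i = x then vg K c ^ 2 else 1)) i (χ i) := by
    intro χ
    simp only
    rw [Finset.prod_eq_single x]
    · simp only [if_true]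
      ring
    · intro b _ hb
      simp [hb]
    · intro h
      exact absurd (Finset.mem_univ _) h
  rw [Finset.sum_congr rfl (fun χ _ => h1 χ)]
  refine le_of_eq_of_le (vg_prod K (fun (i : ι) (c : Fin K) =>
    (if i = x then vg K c ^ 2 else 1))) ?_
  rw [← Finset.mul_prod_erase Finset.univ _ (Finset.mem_univ x)]
  have h2 : ∏ i ∈ Finset.univ.erase x, ∑ c : Fin K, (if i = x then vg K c ^ 2 else (1 : ℝ)) =
      (K : ℝ) ^ (Fintype.card ι - 1) := by
    rw [Finset.prod_congr rfl (g := fun _ => (K : ℝ))]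
    · rw [Finset.prod_const, Finset.card_erase_of_mem (Finset.mem_univ x), Finset.card_univ]
    · intro i hi
      have : i ≠ x := Finset.ne_of_mem_erase hi
      simp [this]
  simp only [if_true]
  rw [h2]
  have hc : 1 ≤ Fintype.card ι := Fintype.card_pos_iff.mpr ⟨x⟩
  have hK' : (0 : ℝ) < K := by exact_mod_cast (show 0 < K by omega)
  have h3 : (K : ℝ) ^ Fintype.card ι / K = (K : ℝ) ^ (Fintype.card ι - 1) := by
    rw [div_eq_iff hK'.ne', ← pow_succ]
    congr 1
    omega
  rw [h3]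
  have h4 := vg_sq K hK
  have h5 : (0 : ℝ) ≤ (K : ℝ) ^ (Fintype.card ι - 1) := by positivity
  nlinarith

theorem VAR : VAR_stmt := by
  intro ι _ _ U K hK
  have h1 : ∀ χ : ι → Fin K, (((U.filter (fun x => (χ x).val = 0)).card : ℝ) - (U.card : ℝ) / K) ^ 2
      = ∑ x ∈ U, ∑ y ∈ U, vg K (χ x) * vg K (χ y) := by
    intro χ
    rw [← Finset.sum_mul_sum, ← sq]
    congr 1
    unfold vg
    rw [Finset.sum_sub_distrib, Finset.sum_const, nsmul_eq_mul, Finset.sum_boole]
    ring
  rw [Finset.sum_congr rfl (fun χ _ => h1 χ), Finset.sum_comm]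
  have h2 : ∀ x ∈ U, ∑ χ : ι → Fin K, ∑ y ∈ U, vg K (χ x) * vg K (χ y) ≤
      (K : ℝ) ^ Fintype.card ι / K := by
    intro x hx
    rw [Finset.sum_comm, Finset.sum_eq_single x]
    · exact vg_diag K hK x
    · intro y _ hy
      exact vg_cross K hK x y (Ne.symm hy)
    · intro h
      exact absurd hx h
  refine (Finset.sum_le_sum h2).trans (le_of_eq ?_)
  rw [Finset.sum_const, nsmul_eq_mul]
  ring

end Pool.Agent.WB
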